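import Pool.Agent.L0h94.SP.StmE

/-!
# Project SP (helper94), module LWY: the lower bounds
-/

set_option autoImplicit false
set_option linter.all false

open Polynomial IsDedekindDomain NumberField
open scoped Classical

namespace Pool.Agent.L0h37.SP

open Pool.Agent.N783.PQ (LocIm)
open Pool.Agent.N874.PP (Ev Sq1 U0)
open Pool.Agent.N783.PF
open Pool.Agent.L0h94.SP

theorem no_two {R : Type*} [CommRing R] (P : Ideal R) (hP : P.IsPrime) {a b : ℕ}
    (hab : Nat.Coprime a b) (ha : (a : R) ∈ P) (hb : (b : R) ∈ P) : False := by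
  have h := (Nat.isCoprime_iff_coprime.2 hab).map (Int.castRingHom R)
  obtain ⟨u, v, huv⟩ := h
  apply hP.ne_top
  rw [Ideal.eq_top_iff_one, ← huv]
  refine P.add_mem (P.mul_mem_left _ ?_) (P.mul_mem_left _ ?_)
  · simpa using ha
  · simpa using hb

theorem lwy (hLOW : S_LOW) (hNPQ : S_NPQ) (hSQ2 : S_SQ2) (hSQR : S_SQR) : S_LWY := by
  intro F _ _
  obtain ⟨c0, hc0⟩ := hLOW F (2 * 1 + 1)
  refine ⟨c0, ?_⟩
  intro L _ _ _ f θ W S 𝔮 r P hG hf hS hcg 𝔔 hQ Y hY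
  have hmem : ∀ q ∈ S, ((q : ℕ) : 𝓞 L) ∈ (𝔔 q).asIdeal := by
    intro q hq
    have h1 := (hQ q hq).1 _ (hS q hq).2.2.2.2.2.2.1
    simpa using h1
  have hinj : Set.InjOn 𝔔 (Y : Set ℕ) := by
    intro q hq q' hq' h
    by_contra hne
    have hq1 := hS q (hY hq)
    have hq2 := hS q' (hY hq')
    refine no_two (𝔔 q).asIdeal (𝔔 q).isPrime ((Nat.coprime_primes hq1.1 hq2.1).2 hne)
      (hmem q (hY hq)) ?_
    rw [h]
    exact hmem q' (hY hq')
  obtain ⟨A, hA1, hA2, hA3⟩ := hc0 L hG.rank (Y.image 𝔔) (by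
    intro 𝔓 h𝔓 h2
    obtain ⟨q, hq, rfl⟩ := Finset.mem_image.1 h𝔓
    have hq1 := hS q (hY hq)
    refine no_two (𝔔 q).asIdeal (𝔔 q).isPrime (a := 2) (b := q) ?_ (by exact_mod_cast h2)
      (hmem q (hY hq))
    rw [Nat.coprime_primes Nat.prime_two hq1.1]
    intro h
    have := hq1.2.2.2.1
    omega) (by
    intro x hx hev
    refine hNPQ 1 W F L f θ S 𝔮 r P le_rfl hG hf hS hcg 𝔔 hQ x hx ?_
    intro 𝔓 h𝔓
    refine hev 𝔓 fun hmem' => ?_
    obtain ⟨q, hq, he⟩ := Finset.mem_image.1 hmem'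
    exact h𝔓 q (hY hq) he.symm)
  rw [Finset.card_image_of_injOn hinj] at hA1
  refine ⟨A, hA1, ?_, hA3⟩
  intro α hα
  obtain ⟨h1, h2, h3, h4, h5⟩ := hA2 α hα
  refine ⟨h1, h2, ?_, ?_⟩
  · intro 𝔓 h𝔓
    refine h3 𝔓 fun hmem' => ?_
    obtain ⟨q, hq, he⟩ := Finset.mem_image.1 hmem'
    exact h𝔓 q hq he.symm
  · obtain ⟨c, hc⟩ := hG.gen α
    set h₀ : F[X] := ∑ i, C (c i) * X ^ (i : ℕ) with hh
    have he : aeval θ h₀ = α := by
      rw [hh, hc, map_sum]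
      refine Finset.sum_congr rfl fun i _ => ?_
      rw [map_mul, aeval_C, map_pow, aeval_X]
    refine ⟨h₀, he, ?_, ?_⟩
    · intro w hw
      obtain ⟨s, hs⟩ := hSQ2 1 F L f θ le_rfl hG hf w hw h₀ (by rw [he]; exact h1)
        (by rw [he]; exact h4)
      refine ⟨[], s, fun p hp => absurd hp (by simp), ?_⟩
      rw [List.map_nil, List.prod_nil, mul_one]
      exact hs
    · intro σ
      obtain ⟨s, hs⟩ := hSQR 1 F L f θ hG σ h₀ (by rw [he]; exact h1)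
        (by rw [he]; exact h5)
      refine ⟨[], s, fun p hp => absurd hp (by simp), ?_⟩
      rw [List.map_nil, List.prod_nil, mul_one]
      exact hs

end Pool.Agent.L0h37.SP

namespace Pool.Agent.L0h37.SP

theorem t_LWY : Pool.Agent.L0h94.SP.S_LOW → Pool.Agent.L0h94.SP.S_NPQ →
    Pool.Agent.L0h94.SP.S_SQ2 → Pool.Agent.L0h94.SP.S_SQR → Pool.Agent.L0h94.SP.S_LWY := lwy

end Pool.Agent.L0h37.SP
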